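import Mathlib
set_option linter.style.longLine false
namespace Pool.Agent.Results.MP_344d3d_lc.No
open Set Cardinal

/-- The countable ordinals. -/
abbrev W : Type := (ℵ₁ : Cardinal.{0}).ord.ToType

def Shatters (F : Set (W → Bool)) (A : Finset W) : Prop := ∀ g : W → Bool, ∃ x ∈ F, ∀ a ∈ A, x a = g a

def FinDim (F : Set (W → Bool)) : Prop := ∃ n : ℕ, ∀ A : Finset W, A.card = n → ¬ Shatters F A

/-- The sigma-ideal generated by the families of finite string dimension. -/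
def Idl : Set (Set (W → Bool)) := {F | ∃ G : ℕ → Set (W → Bool), (∀ n, FinDim (G n)) ∧ F ⊆ ⋃ n, G n}

noncomputable def sd : Cardinal.{0} :=
  sInf {c | ∃ 𝒜 : Set (Set (W → Bool)), 𝒜 ⊆ Idl ∧ ⋃₀ 𝒜 = Set.univ ∧ #𝒜 = c}

lemma indep : ∃ x : Set W → W → Bool, ∀ (ι : Type) [Fintype ι] (φ : ι → Set W), Function.Injective φ →
    ∀ p : ι → Bool, ∃ a, ∀ i, x (φ i) a = p i := by
  classical
  have : Infinite W := by rw [Cardinal.infinite_iff]; simp
  obtain ⟨e⟩ : Nonempty (W ≃ Finset W × Finset (Finset W)) := by rw [← Cardinal.eq]; simp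
  refine ⟨fun X a => decide ((e a).1.filter (· ∈ X) ∈ (e a).2), fun ι _ φ hφ p => ?_⟩
  have : ∀ q : ι × ι, ∃ a, q.1 ≠ q.2 → ¬ (a ∈ φ q.1 ↔ a ∈ φ q.2) := fun q => by
    by_contra h; push Not at h
    exact (h (Classical.arbitrary _)).1 (hφ (Set.ext fun a => (h a).2))
  choose d hd using this
  let s := Finset.univ.image d
  refine ⟨e.symm (s, (Finset.univ.filter (p · = true)).image fun i => s.filter (· ∈ φ i)), fun i => ?_⟩
  have : ∀ j, s.filter (· ∈ φ j) = s.filter (· ∈ φ i) ↔ j = i := fun j => ⟨fun h => by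
    by_contra c
    have := Finset.ext_iff.1 h (d (j, i))
    exact hd (j, i) c (by simpa [s] using this), fun h => by rw [h]⟩
  simp [this]

theorem result : sd = 2 ^ ℵ₁ ∧ ((2 : Cardinal.{0}) ^ ℵ₁).ord.cof ≤ sd := by
  classical
  have hW : #W = ℵ₁ := by simp
  have main : sd = 2 ^ ℵ₁ := by
    have up : (2 ^ ℵ₁ : Cardinal.{0}) ∈
        {c | ∃ 𝒜 : Set (Set (W → Bool)), 𝒜 ⊆ Idl ∧ ⋃₀ 𝒜 = Set.univ ∧ #𝒜 = c} := by
      refine ⟨range singleton, ?_, by rw [sUnion_range]; exact iUnion_of_singleton _, by rw [mk_range_eq _ singleton_injective]; simp⟩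
      rintro _ ⟨x, rfl⟩
      refine ⟨fun _ => {x}, fun _ => ⟨1, fun A hA h => ?_⟩, by simp⟩
      obtain ⟨a, rfl⟩ := Finset.card_eq_one.1 hA
      obtain ⟨_, rfl, h⟩ := h fun b => !x b
      simp at h
    refine le_antisymm (csInf_le' up) (le_csInf ⟨_, up⟩ ?_)
    rintro _ ⟨𝒜, h1, h2, rfl⟩
    obtain ⟨x, hx⟩ := indep
    have fin : ∀ G, FinDim G → (x ⁻¹' G).Finite := by
      rintro G ⟨n, hn⟩
      by_contra hi
      let φ := (Set.Infinite.natEmbedding _ hi)
      let ψ : (Fin n → Bool) → Set W := fun s => (φ (Encodable.encode s)).1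
      have hψ : Function.Injective ψ := fun s t h => Encodable.encode_injective (φ.injective (Subtype.ext h))
      choose a ha using fun i : Fin n => hx _ ψ hψ fun s => s i
      have ia : Function.Injective a := fun i j h => by
        have := (ha i (fun k => decide (k = i))).symm.trans (h ▸ ha j (fun k => decide (k = i)))
        simpa [eq_comm] using this
      refine hn (Finset.univ.image a) (by simp [Finset.card_image_of_injective _ ia]) fun g =>
        ⟨x (ψ fun i => g (a i)), (φ _).2, ?_⟩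
      simp [ha]
    have cnt : ∀ F : 𝒜, #(x ⁻¹' F.1) ≤ ℵ₀ := fun F => by
      obtain ⟨G, k1, k2⟩ := h1 F.2
      exact ((countable_iUnion fun n => (fin _ (k1 n)).countable).mono fun X hX => by
        simpa using k2 hX).le_aleph0
    have : (2 : Cardinal.{0}) ^ ℵ₁ ≤ #𝒜 * ℵ₀ := by
      calc (2 : Cardinal.{0}) ^ ℵ₁ = #(Set.univ : Set (Set W)) := by simp
        _ ≤ #(⋃ F : 𝒜, x ⁻¹' F.1) := mk_le_mk_of_subset fun X _ => by
          obtain ⟨F, i, j⟩ := (h2 ▸ mem_univ (x X) : x X ∈ ⋃₀ 𝒜)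
          exact mem_iUnion.2 ⟨⟨F, i⟩, j⟩
        _ ≤ #𝒜 * ⨆ F : 𝒜, #(x ⁻¹' F.1) := mk_iUnion_le _
        _ ≤ _ := mul_le_mul' le_rfl (ciSup_le' cnt)
    by_contra hc
    have h0 : ℵ₀ < (2 : Cardinal.{0}) ^ ℵ₁ := aleph0_lt_aleph_one.trans (cantor _)
    exact (mul_lt_of_lt h0.le (not_le.1 hc) h0).not_ge this
  exact ⟨main, main ▸ (Ordinal.cof_le_card _).trans (by simp)⟩

end Pool.Agent.Results.MP_344d3d_lc.No
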